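import Pool.Agent.H28.PL.Defs

/-!
# A36: `m = 3, 6` (`MP_cd3997_nt`)
-/

set_option autoImplicit false

open Finset

namespace Pool.Agent.H11.PL

open Pool.Agent.H28.PL

theorem pe_pos : ∀ n : ℕ, 0 < n → 1 ≤ pe n
  | 0, h => absurd h (lt_irrefl 0)
  | 1, _ => by simp [pe]
  | n + 2, _ => by
    have h1 := pe_pos (n + 1) (Nat.succ_pos n)
    rw [pe]
    omega

theorem ve_ge : ∀ n : ℕ, 2 ≤ ve n
  | 0 => by simp [ve]
  | 1 => by simp [ve]
  | n + 2 => by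
    have h1 := ve_ge (n + 1)
    rw [ve]
    omega

theorem ve_ge_six {n : ℕ} (h : 2 ≤ n) : 6 ≤ ve n := by
  obtain ⟨m, rfl⟩ : ∃ m, n = m + 2 := ⟨n - 2, by omega⟩
  have h1 := ve_ge (m + 1)
  have h2 := ve_ge m
  rw [ve]
  omega

theorem mu_one : (ArithmeticFunction.moebius 1 : ℤ) = 1 := by simp

theorem mu_two : (ArithmeticFunction.moebius 2 : ℤ) = -1 :=
  ArithmeticFunction.moebius_apply_prime Nat.prime_two

theorem mu_three : (ArithmeticFunction.moebius 3 : ℤ) = -1 :=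
  ArithmeticFunction.moebius_apply_prime Nat.prime_three

theorem mu_six : (ArithmeticFunction.moebius 6 : ℤ) = 1 := by
  have h1 : (ArithmeticFunction.moebius (2 * 3) : ℤ) =
      ArithmeticFunction.moebius 2 * ArithmeticFunction.moebius 3 :=
    ArithmeticFunction.isMultiplicative_moebius.map_mul_of_coprime (by norm_num)
  rw [mu_two, mu_three] at h1
  exact h1

theorem al_mul_be : al * be = -1 := by
  unfold al be
  have h := Real.mul_self_sqrt (show (0 : ℝ) ≤ 2 by norm_num)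
  nlinarith

theorem TT_three (s : ℕ) : TT 3 s = (pe s : ℝ)⁻¹ * pe (s * 3) := by
  have h : Nat.divisors 3 = {1, 3} := by decide
  unfold TT
  rw [h, Finset.prod_pair (by norm_num)]
  norm_num [mu_three]

theorem TT_six (s : ℕ) : TT 6 s =
    (pe s : ℝ) * (pe (s * 2) : ℝ)⁻¹ * (pe (s * 3) : ℝ)⁻¹ * pe (s * 6) := by
  have h : Nat.divisors 6 = {1, 2, 3, 6} := by decide
  unfold TT
  rw [h, Finset.prod_insert (by decide), Finset.prod_insert (by decide),
    Finset.prod_insert (by decide), Finset.prod_singleton]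
  norm_num [mu_three, mu_two, mu_six]
  ring

theorem pf_A36 (hB : T_BIN) : T_A36 := by
  intro s z hs
  obtain ⟨x, hx⟩ : ∃ x : ℝ, x = al ^ s := ⟨_, rfl⟩
  obtain ⟨y, hy⟩ : ∃ y : ℝ, y = be ^ s := ⟨_, rfl⟩
  have hxy : x * y = (-1) ^ s := by
    rw [hx, hy, ← mul_pow, al_mul_be]
  have hv : (ve s : ℝ) = x + y := by rw [hx, hy]; exact (hB s).2
  have h2 : (0 : ℝ) < 2 * Real.sqrt 2 := by positivity
  have h1 : 2 * Real.sqrt 2 * (pe s : ℝ) = x - y := by rw [hx, hy]; exact (hB s).1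
  have hpw : ∀ k : ℕ, 2 * Real.sqrt 2 * (pe (s * k) : ℝ) = x ^ k - y ^ k := by
    intro k
    rw [hx, hy, ← pow_mul, ← pow_mul]
    exact (hB (s * k)).1
  have hp : ∀ k : ℕ, 0 < k → (0 : ℝ) < (pe (s * k) : ℝ) := by
    intro k hk
    have := pe_pos (s * k) (Nat.mul_pos hs hk)
    exact_mod_cast this
  have hp1 : (0 : ℝ) < (pe s : ℝ) := by
    have := pe_pos s hs
    exact_mod_cast this
  have e3 : (pe (s * 3) : ℝ) = pe s * (x ^ 2 + x * y + y ^ 2) := by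
    have h3 := hpw 3
    have h4 : 2 * Real.sqrt 2 * (pe (s * 3) : ℝ) =
        2 * Real.sqrt 2 * (pe s * (x ^ 2 + x * y + y ^ 2)) := by
      rw [h3, ← mul_assoc, h1]
      ring
    exact mul_left_cancel₀ h2.ne' h4
  have e6 : (pe (s * 6) : ℝ) * pe s = pe (s * 2) * pe (s * 3) * (x ^ 2 - x * y + y ^ 2) := by
    have h6 := hpw 6
    have h7 := hpw 2
    have h8 := hpw 3
    have h4 : 2 * Real.sqrt 2 * (2 * Real.sqrt 2) * ((pe (s * 6) : ℝ) * pe s) =
        2 * Real.sqrt 2 * (2 * Real.sqrt 2) *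
          (pe (s * 2) * pe (s * 3) * (x ^ 2 - x * y + y ^ 2)) := by
      calc 2 * Real.sqrt 2 * (2 * Real.sqrt 2) * ((pe (s * 6) : ℝ) * pe s) =
          (2 * Real.sqrt 2 * (pe (s * 6) : ℝ)) * (2 * Real.sqrt 2 * pe s) := by ring
        _ = (x ^ 6 - y ^ 6) * (x - y) := by rw [h6, h1]
        _ = (x ^ 2 - y ^ 2) * (x ^ 3 - y ^ 3) * (x ^ 2 - x * y + y ^ 2) := by ring
        _ = (2 * Real.sqrt 2 * (pe (s * 2) : ℝ)) * (2 * Real.sqrt 2 * (pe (s * 3) : ℝ)) *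
            (x ^ 2 - x * y + y ^ 2) := by rw [h7, h8]
        _ = _ := by ring
    exact mul_left_cancel₀ (mul_pos h2 h2).ne' h4
  have t3 : TT 3 s = (ve s : ℝ) ^ 2 - (-1) ^ s := by
    rw [TT_three, e3, ← mul_assoc, inv_mul_cancel₀ hp1.ne', one_mul, hv, ← hxy]
    ring
  have t6 : TT 6 s = (ve s : ℝ) ^ 2 - 3 * (-1) ^ s := by
    have h3 := (hp 3 (by norm_num)).ne'
    have h4 := (hp 2 (by norm_num)).ne'
    rw [TT_six]
    have h5 : (pe s : ℝ) * (pe (s * 2) : ℝ)⁻¹ * (pe (s * 3) : ℝ)⁻¹ * pe (s * 6) =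
        (pe (s * 2) : ℝ)⁻¹ * (pe (s * 3) : ℝ)⁻¹ * (pe (s * 6) * pe s) := by ring
    rw [h5, e6, hv, ← hxy]
    field_simp
    ring
  have hv2 := ve_ge s
  rw [t3, t6]
  rcases Nat.even_or_odd s with he | ho
  · have hv6 : 6 ≤ ve s := ve_ge_six (by obtain ⟨r, hr⟩ := he; omega)
    rw [he.neg_one_pow]
    constructor
    · intro h
      have h3 : (ve s : ℤ) ^ 2 - 1 = (z : ℤ) ^ 2 := by exact_mod_cast h
      have hv2' : (6 : ℤ) ≤ (ve s : ℤ) := by exact_mod_cast hv6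
      have hz : (0 : ℤ) ≤ (z : ℤ) := Int.natCast_nonneg _
      rcases lt_or_ge (z : ℤ) (ve s : ℤ) with h4 | h4
      · nlinarith
      · nlinarith
    · intro h
      have h3 : (ve s : ℤ) ^ 2 - 3 * 1 = (z : ℤ) ^ 2 := by exact_mod_cast h
      have hv2' : (6 : ℤ) ≤ (ve s : ℤ) := by exact_mod_cast hv6
      have hz : (0 : ℤ) ≤ (z : ℤ) := Int.natCast_nonneg _
      rcases lt_or_ge (z : ℤ) (ve s : ℤ) with h4 | h4
      · nlinarith
      · nlinarith
  · rw [ho.neg_one_pow]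
    have hv2' : (2 : ℤ) ≤ (ve s : ℤ) := by exact_mod_cast hv2
    have hz : (0 : ℤ) ≤ (z : ℤ) := Int.natCast_nonneg _
    constructor
    · intro h
      have h3 : (ve s : ℤ) ^ 2 - (-1) = (z : ℤ) ^ 2 := by exact_mod_cast h
      rcases lt_or_ge (ve s : ℤ) (z : ℤ) with h4 | h4
      · nlinarith
      · nlinarith
    · intro h
      have h3 : (ve s : ℤ) ^ 2 - 3 * (-1) = (z : ℤ) ^ 2 := by exact_mod_cast h
      rcases lt_or_ge (ve s : ℤ) (z : ℤ) with h4 | h4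
      · nlinarith
      · nlinarith

end Pool.Agent.H11.PL
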