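import Pool.Agent.H28.PL.Easy
import Pool.Agent.H11.PL.A36

/-!
# JRV: the ratio sequences, `c ≥ 2` (`MP_cd3997_nt`)
-/

set_option autoImplicit false

open Finset

namespace Pool.Agent.H11.PL

open Pool.Agent.H28.PL

theorem ve_add (a b : ℕ) (hb : Even b) : ve (a + 2 * b) + ve a = ve (a + b) * ve b := by
  have h1 : ((ve (a + 2 * b) + ve a : ℕ) : ℝ) = ((ve (a + b) * ve b : ℕ) : ℝ) := by
    push_cast
    rw [(pf_BIN _).2, (pf_BIN _).2, (pf_BIN _).2, (pf_BIN _).2]
    have h2 : al ^ b * be ^ b = 1 := by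
      rw [← mul_pow, al_mul_be, hb.neg_one_pow]
    rw [pow_add, pow_add, pow_add, pow_add, mul_comm 2 b, pow_mul, pow_mul]
    linear_combination (- al ^ a - be ^ a) * h2
  exact_mod_cast h1

theorem ve_mod (n : ℕ) : (n % 4 = 0 → ve n % 8 = 2 ∧ ve (n + 1) % 8 = 2) ∧
    (n % 4 = 1 → ve n % 8 = 2 ∧ ve (n + 1) % 8 = 6) ∧
    (n % 4 = 2 → ve n % 8 = 6 ∧ ve (n + 1) % 8 = 6) ∧
    (n % 4 = 3 → ve n % 8 = 6 ∧ ve (n + 1) % 8 = 2) := by
  induction n with
  | zero => simp [ve]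
  | succ n ih =>
    have h1 : ve (n + 1 + 1) = 2 * ve (n + 1) + ve n := rfl
    rw [h1]
    omega

theorem pf_JRV (hd : T_ADV) : T_JRV := by
  intro c g hc hg
  obtain ⟨N, hN⟩ : ∃ N, N = 2 ^ (c - 1) * g := ⟨_, rfl⟩
  have hNe : Even N := by
    rw [hN]
    obtain ⟨c', hc'⟩ : ∃ c', c - 1 = c' + 1 := ⟨c - 2, by omega⟩
    rw [hc', pow_succ]
    exact ⟨2 ^ c' * g, by ring⟩
  have hAA : ∀ n, AA c n = ve (2 ^ (c - 1) * n) := by
    intro n
    unfold AA
    rw [if_neg (by omega)]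
  have hAk : ∀ k, AA c (g * k) = ve (N * k) := by
    intro k
    rw [hAA, hN, mul_assoc]
  have hA1 : AA c g = ve N := by rw [hAA, hN]
  have hv0 : 0 < ve N := lt_of_lt_of_le (by norm_num) (ve_ge N)
  obtain ⟨B, hBdef⟩ : ∃ B : ℕ → ℕ, B = fun k => AA c (g * k) / AA c g := ⟨_, rfl⟩
  rw [← hBdef]
  have hB : ∀ k, Odd k → B k * ve N = ve (N * k) := by
    intro k hk
    have h1 := hd c g k hg hk
    rw [hBdef]
    dsimp only
    rw [hAk, hA1] at h1 ⊢
    exact Nat.div_mul_cancel h1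
  have hNk : ∀ k, Even (N * k) := fun k => hNe.mul_right k
  -- the key relation
  have key : ∀ b r s : ℕ, Odd b → Odd r → Odd s → ∀ t, r = s + 2 * t → b = s + t →
      (B b : ℤ) ∣ B r + B s := by
    intro b r s hb hr hs t hrt hbt
    have h1 := ve_add (N * s) (N * t) (hNk t)
    have e1 : N * s + 2 * (N * t) = N * r := by rw [hrt]; ring
    have e2 : N * s + N * t = N * b := by rw [hbt]; ring
    rw [e1, e2, ← hB r hr, ← hB s hs, ← hB b hb] at h1
    have h2 : (B r + B s) * ve N = (B b * ve (N * t)) * ve N := by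
      rw [add_mul, h1]
      ring
    have h3 := Nat.eq_of_mul_eq_mul_right hv0 h2
    exact ⟨(ve (N * t) : ℤ), by exact_mod_cast h3⟩
  have key2 : ∀ b k : ℕ, Odd b → Odd k → (B b : ℤ) ∣ B (k + 2 * b) + B k := by
    intro b k hb hk
    have h1 := ve_add (N * k) (N * b) (hNk b)
    have hk2 : Odd (k + 2 * b) := hk.add_even (even_two_mul b)
    have e1 : N * k + 2 * (N * b) = N * (k + 2 * b) := by ring
    rw [e1, ← hB _ hk2, ← hB k hk, ← hB b hb] at h1
    have h2 : (B (k + 2 * b) + B k) * ve N = (B b * ve (N * k + N * b)) * ve N := by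
      rw [add_mul, h1]
      ring
    have h3 := Nat.eq_of_mul_eq_mul_right hv0 h2
    exact ⟨(ve (N * k + N * b) : ℤ), by exact_mod_cast h3⟩
  refine ⟨?_, ?_, ?_, ?_⟩
  · have h1 := hB 1 odd_one
    rw [mul_one] at h1
    exact Nat.eq_of_mul_eq_mul_right hv0 (by rw [h1, one_mul])
  · intro k hk
    have h1 := hB k hk
    have h2 := ve_mod N
    have h3 := ve_mod (N * k)
    have h4 : (N * k) % 4 = N % 4 := by
      obtain ⟨r, hr⟩ := hNe
      obtain ⟨s, hs⟩ := hk
      have : N * k = N + 4 * (r * s) := by rw [hs, hr]; ring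
      omega
    have h5 : N % 4 = 0 ∨ N % 4 = 2 := by
      obtain ⟨r, hr⟩ := hNe
      omega
    have h6 : (B k * ve N) % 8 = ((B k % 8) * (ve N % 8)) % 8 := Nat.mul_mod _ _ _
    have h7 : B k % 8 < 8 := Nat.mod_lt _ (by norm_num)
    have h8 : B k % 4 = (B k % 8) % 4 := by omega
    rw [h1] at h6
    rw [h8]
    rcases h5 with h5 | h5
    · have e1 : ve N % 8 = 2 := (h2.1 h5).1
      have e2 : ve (N * k) % 8 = 2 := (h3.1 (by omega)).1
      rw [e1, e2] at h6
      omega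
    · have e1 : ve N % 8 = 6 := (h2.2.2.1 h5).1
      have e2 : ve (N * k) % 8 = 6 := (h3.2.2.1 (by omega)).1
      rw [e1, e2] at h6
      omega
  · intro b k hb hk
    exact Or.inr (key2 b k hb hk)
  · intro b k hb hk hkb
    right
    have hk2 : Odd (2 * b - k) := by
      obtain ⟨r, hr⟩ := hk
      exact ⟨b - r - 1, by omega⟩
    rcases Nat.le_total k b with h | h
    · exact key b (2 * b - k) k hb hk2 hk (b - k) (by omega) (by omega)
    · rw [add_comm]
      exact key b k (2 * b - k) hb hk hk2 (k - b) (by omega) (by omega)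

end Pool.Agent.H11.PL
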