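import Pool.Agent.H28.PL.Defs

/-!
# PHI: small totients (`MP_cd3997_nt`)
-/

set_option autoImplicit false

open Finset

namespace Pool.Agent.H11.PL

open Pool.Agent.H28.PL

/-- An odd squarefree number greater than 1 is a prime, or its totient is divisible by 4. -/
theorem odd_case {n : ℕ} (hn : Squarefree n) (ho : Odd n) (h1 : 1 < n) :
    (n.Prime ∧ n % 4 = 3) ∨ 4 ∣ Nat.totient n := by
  obtain ⟨p, hp, hpn⟩ := Nat.exists_prime_and_dvd h1.ne'
  obtain ⟨k, hk⟩ := hpn
  have hpo : Odd p := by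
    rw [hk] at ho
    exact (Nat.odd_mul.mp ho).1
  have hko : Odd k := by
    rw [hk] at ho
    exact (Nat.odd_mul.mp ho).2
  have hp2 : 2 < p := by
    rcases hp.eq_two_or_odd' with h | h
    · rw [h] at hpo
      exact absurd hpo (by decide)
    · have := hp.two_le
      obtain ⟨r, hr⟩ := h
      omega
  have hpk : Nat.Coprime p k := by
    rw [hk] at hn
    exact (Nat.squarefree_mul_iff.mp hn).1
  by_cases hk1 : k = 1
  · rw [hk1, mul_one] at hk
    rw [hk, Nat.totient_prime hp]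
    obtain ⟨r, hr⟩ := hpo
    rcases Nat.even_or_odd r with ⟨t, ht⟩ | ⟨t, ht⟩
    · right
      exact ⟨t, by omega⟩
    · left
      exact ⟨hp, by omega⟩
  · right
    have hk2 : 2 < k := by
      obtain ⟨r, hr⟩ := hko
      omega
    rw [hk, Nat.totient_mul hpk]
    have e1 := (Nat.totient_even hp2).two_dvd
    have e2 := (Nat.totient_even hk2).two_dvd
    exact mul_dvd_mul e1 e2

theorem pf_PHI : T_PHI := by
  intro m hm h1
  have hfour : 4 ∣ Nat.totient m → ∃ K, 0 < K ∧ Nat.totient m = 4 * K := by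
    rintro ⟨K, hK⟩
    refine ⟨K, ?_, hK⟩
    have := Nat.totient_pos.mpr (show 0 < m by omega)
    omega
  have hprime : ∀ n : ℕ, n.Prime → n % 4 = 3 → (m = n ∨ m = 2 * n) →
      m = 2 ∨ m = 3 ∨ m = 6 ∨ m = 7 ∨ m = 14 ∨ (∃ K, 0 < K ∧ Nat.totient m = 4 * K) ∨
      (∃ p K, p.Prime ∧ p = 4 * K + 3 ∧ 2 ≤ K ∧ (m = p ∨ m = 2 * p)) := by
    intro n hn hn3 hmn
    obtain ⟨K, hK⟩ : ∃ K, n = 4 * K + 3 := ⟨n / 4, by omega⟩
    rcases Nat.lt_or_ge K 2 with hlt | hge
    · have : K = 0 ∨ K = 1 := by omega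
      rcases this with h | h <;> rcases hmn with h' | h' <;> omega
    · exact Or.inr (Or.inr (Or.inr (Or.inr (Or.inr (Or.inr ⟨n, K, hn, hK, hge, hmn⟩)))))
  rcases Nat.even_or_odd m with he | ho
  · obtain ⟨n, hn⟩ := he.two_dvd
    have hno : Odd n := by
      rw [← Nat.not_even_iff_odd]
      intro hne
      obtain ⟨t, ht⟩ := hne.two_dvd
      have h2 : IsUnit (2 : ℕ) := hm 2 ⟨t, by rw [hn, ht]; ring⟩
      rw [Nat.isUnit_iff] at h2
      omega
    by_cases hn1 : n = 1
    · left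
      omega
    · have hn1' : 1 < n := by
        obtain ⟨r, hr⟩ := hno
        omega
      have hns : Squarefree n := hm.squarefree_of_dvd ⟨2, by rw [hn, mul_comm]⟩
      rcases odd_case hns hno hn1' with ⟨h2, h3⟩ | h2
      · exact hprime n h2 h3 (Or.inr hn)
      · have h3 : Nat.totient m = Nat.totient n := by
          rw [hn, Nat.totient_mul (Nat.coprime_two_left.mpr hno), Nat.totient_two, one_mul]
        rw [← h3] at h2
        exact Or.inr (Or.inr (Or.inr (Or.inr (Or.inr (Or.inl (hfour h2))))))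
  · rcases odd_case hm ho h1 with ⟨h2, h3⟩ | h2
    · exact hprime m h2 h3 (Or.inl rfl)
    · exact Or.inr (Or.inr (Or.inr (Or.inr (Or.inr (Or.inl (hfour h2))))))

end Pool.Agent.H11.PL
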